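import Pool.Agent.H41.CP.GDefs

/-!
# Project CP (helper41), general case, parts GG3 and GG4

GG3 adapts `Pool/Agent/H747/CP/G3.lean`, GG4 adapts `Pool/Agent/H549/CP/G4.lean`.
-/

set_option autoImplicit false
set_option linter.all false

namespace Pool.Agent.H747.CPG

open Pool.Agent.H41.CP (nb dg)
open Pool.Agent.H41.CPG

theorem ais {r : ℕ} (τ : PP r) (x : Fin (2 * r)) : τ (τ⁻¹ x) = x := τ.apply_symm_apply x

theorem ias {r : ℕ} (τ : PP r) (x : Fin (2 * r)) : τ⁻¹ (τ x) = x := τ.symm_apply_apply x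

section

variable {V : Type} [DecidableEq V] {G : SimpleGraph V} [DecidableRel G.Adj] {r : ℕ}
  {σ : V → V → PP r}

theorem mem_nb {W : Finset V} {u x : V} : x ∈ nb G W u ↔ x ∈ W ∧ G.Adj u x := by
  unfold nb
  rw [Finset.mem_filter]

theorem cover {N : Finset V} {n : ℕ} (h : N.card = n) :
    ∃ x : Fin n → V, (∀ i, x i ∈ N) ∧ ∀ y ∈ N, ∃ i, y = x i := by
  refine ⟨fun i => ((Finset.equivFinOfCardEq h).symm i : V), fun i => Subtype.property _,
    fun y hy => ?_⟩
  refine ⟨Finset.equivFinOfCardEq h ⟨y, hy⟩, ?_⟩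
  show y = (((Finset.equivFinOfCardEq h).symm (Finset.equivFinOfCardEq h ⟨y, hy⟩) : N) : V)
  rw [Equiv.symm_apply_apply]

/-- One vertex extension. -/
theorem ext1 (hσ : ∀ u v, G.Adj u v → σ v u = (σ u v)⁻¹) {W : Finset V} {w : V} {φ : V → PP r}
    (hφ : Packs G σ (W.erase w) φ) {s : PP r}
    (hs : ∀ x ∈ nb G W w, ∀ i, s i ≠ σ x w (φ x i)) : Packs G σ W (Function.update φ w s) := by
  intro a ha b hb hab i
  by_cases h1 : a = w
  · subst h1
    have h2 : b ≠ a := hab.ne'
    rw [Function.update_self, Function.update_of_ne h2]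
    have h3 := hs b (mem_nb.2 ⟨hb, hab⟩) i
    rw [hσ a b hab] at h3
    intro h4
    apply h3
    rw [h4, ias]
  · by_cases h2 : b = w
    · subst h2
      rw [Function.update_self, Function.update_of_ne h1]
      exact hs a (mem_nb.2 ⟨ha, hab.symm⟩) i
    · rw [Function.update_of_ne h1, Function.update_of_ne h2]
      exact hφ a (Finset.mem_erase.2 ⟨h1, ha⟩) b (Finset.mem_erase.2 ⟨h2, hb⟩) hab i

/-- Recolouring. -/
theorem recol (hσ : ∀ u v, G.Adj u v → σ v u = (σ u v)⁻¹) {W : Finset V} {φ : V → PP r}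
    (hφ : Packs G σ W φ) {u : V} (hu : u ∈ W) {n : ℕ} (hc : (nb G W u).card = n) (τ : PP r) :
    ∃ H : Fin n → PP r, Av H (τ * φ u) ∧
      ∀ g, Av H g → Packs G σ W (Function.update φ u (τ⁻¹ * g)) := by
  obtain ⟨e, he1, he2⟩ := cover hc
  refine ⟨fun i => τ * (σ (e i) u * φ (e i)), ?_, ?_⟩
  · intro i x
    have h1 := mem_nb.1 (he1 i)
    have h2 := hφ (e i) h1.1 u hu h1.2.symm x
    show τ (φ u x) ≠ τ (σ (e i) u (φ (e i) x))
    exact fun h3 => h2 (τ.injective h3)
  · intro g hg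
    refine ext1 hσ ?_ ?_
    · intro a ha b hb hab i
      exact hφ a (Finset.mem_of_mem_erase ha) b (Finset.mem_of_mem_erase hb) hab i
    · intro x hx i h3
      obtain ⟨j, hj⟩ := he2 x hx
      have h4 := hg j i
      apply h4
      show g i = τ (σ (e j) u (φ (e j) i))
      rw [← hj, ← h3]
      show g i = τ (τ⁻¹ (g i))
      rw [ais]

end

theorem gg3 (hu : S_GU) : S_GG3 := by
  intro r hr V _ G _ σ hσ W u w huW hwW huw du dw φ hφ
  have hcu : (nb G (W.erase w) u).card = r + 1 := by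
    have h1 : nb G (W.erase w) u = (nb G W u).erase w := by
      ext x
      rw [mem_nb, Finset.mem_erase, Finset.mem_erase, mem_nb]
      tauto
    rw [h1, Finset.card_erase_of_mem (mem_nb.2 ⟨hwW, huw⟩)]
    unfold dg at du
    omega
  have huW' : u ∈ W.erase w := Finset.mem_erase.2 ⟨huw.ne, huW⟩
  have hcw : ((nb G W w).erase u).card = r := by
    rw [Finset.card_erase_of_mem (mem_nb.2 ⟨huW, huw.symm⟩)]
    unfold dg at dw
    omega
  obtain ⟨x, hx1, hx2⟩ := cover hcw
  obtain ⟨H, hH1, hH2⟩ := recol hσ hφ huW' hcu (σ u w)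
  obtain ⟨g, hg, hg'⟩ := hu r hr H (fun i => σ (x i) w * φ (x i)) ⟨_, hH1⟩
  have hφ1 := hH2 g hg
  unfold Bad at hg'
  rw [not_not] at hg'
  obtain ⟨s, hs⟩ := hg'
  refine ⟨_, ext1 hσ hφ1 (s := s) ?_⟩
  intro y hy i
  by_cases h1 : y = u
  · subst h1
    rw [Function.update_self]
    show s i ≠ σ y w ((σ y w)⁻¹ (g i))
    rw [ais]
    exact (hs i).1
  · rw [Function.update_of_ne h1]
    obtain ⟨j, hj⟩ := hx2 y (Finset.mem_erase.2 ⟨h1, hy⟩)
    have h2 := (hs i).2 j
    rw [hj]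
    exact h2

theorem gg4 (hc : S_GCORE) : S_GG4 := by
  intro r hr V _ G _ σ hσ W hno v hv K hK hKc hdv φ hφ
  haveI : NeZero (2 * r) := ⟨by omega⟩
  have hKnb : K ⊆ nb G W v := by
    intro w hw
    obtain ⟨h1, h2, _⟩ := hK w hw
    exact mem_nb.2 ⟨h1, h2⟩
  have hvK : v ∉ K := fun h => G.irrefl (hK v h).2.1
  -- the neighbour outside `K`
  have hN : (nb G W v \ K).card = 1 := by
    rw [Finset.card_sdiff_of_subset hKnb]
    have : (nb G W v).card = r + 3 := hdv
    omega
  obtain ⟨p, hp⟩ := Finset.card_eq_one.1 hN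
  -- the colours for `v`
  let t : Fin (2 * r) → PP r := fun j => (σ p v * φ p) * Equiv.addRight j
  have ht : ∀ j x, t j x = (σ p v * φ p) (x + j) := fun j x => rfl
  have ht1 : ∀ j, j ≠ 0 → ∀ x, t j x ≠ (σ p v * φ p) x := by
    intro j hj x h
    rw [ht] at h
    have h1 := (σ p v * φ p).injective h
    exact hj (add_eq_left.1 h1)
  have ht2 : ∀ i j, i ≠ j → ∀ x, t i x ≠ t j x := by
    intro i j hij x h
    rw [ht, ht] at h
    exact hij (add_left_cancel ((σ p v * φ p).injective h))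
  -- the other neighbours of a member of `K`
  have hx : ∀ w : V, ∃ x : Fin r → V, w ∈ K → ∀ y ∈ W, G.Adj w y → y ≠ v → ∃ i, y = x i := by
    intro w
    by_cases hw : w ∈ K
    · obtain ⟨h1, h2, h3⟩ := hK w hw
      have hvn : v ∈ nb G W w := mem_nb.2 ⟨hv, h2.symm⟩
      have hc : ((nb G W w).erase v).card = r := by
        rw [Finset.card_erase_of_mem hvn]
        have : (nb G W w).card = r + 1 := h3
        omega
      obtain ⟨x, _, hx⟩ := cover hc
      refine ⟨x, fun _ y hy hwy hyv => hx y ?_⟩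
      rw [Finset.mem_erase]
      exact ⟨hyv, mem_nb.2 ⟨hy, hwy⟩⟩
    · exact ⟨fun _ => v, fun h => absurd h hw⟩
  choose x hx using hx
  let F : V → Fin r → PP r := fun w i => σ (x w i) w * φ (x w i)
  have hone : ∀ w, ∀ i j : Fin (2 * r), i ≠ j → Bad (F w) (σ v w * t i) →
      ¬ Bad (F w) (σ v w * t j) := by
    intro w i j hij hi hj
    obtain ⟨X, hX1, hX2⟩ := hc r hr (F w) _ hi
    have h1 := hX2 _ hj
    rw [Finset.filter_true_of_mem, hX1] at h1
    · omega
    · intro y _ h2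
      exact ht2 j i hij.symm y ((σ v w).injective h2)
  obtain ⟨i, hi0, hi⟩ : ∃ i : Fin (2 * r), i ≠ 0 ∧ ∀ w ∈ K, ¬ Bad (F w) (σ v w * t i) := by
    by_contra hcon
    have hcon' : ∀ i : Fin (2 * r), ∃ w, i ≠ 0 → w ∈ K ∧ Bad (F w) (σ v w * t i) := by
      intro i
      by_cases hi0 : i = 0
      · exact ⟨v, fun h => absurd hi0 h⟩
      by_contra h
      apply hcon
      refine ⟨i, hi0, fun w hw hb => h ⟨w, fun _ => ⟨hw, hb⟩⟩⟩
    choose g hg using hcon'
    have hinj : Set.InjOn g (((Finset.univ : Finset (Fin (2 * r))).erase 0 : Finset _) :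
        Set (Fin (2 * r))) := by
      intro a ha b hb hab
      rw [Finset.mem_coe, Finset.mem_erase] at ha hb
      by_contra hne
      have h1 := (hg a ha.1).2
      rw [hab] at h1
      exact hone (g b) a b hne h1 (hg b hb.1).2
    have hcard : ((Finset.univ : Finset (Fin (2 * r))).erase 0).card ≤ K.card :=
      Finset.card_le_card_of_injOn g
        (fun i hi => (hg i (Finset.ne_of_mem_erase hi)).1) hinj
    rw [Finset.card_erase_of_mem (Finset.mem_univ _), Finset.card_univ, Fintype.card_fin] at hcard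
    omega
  have he : ∀ w : V, ∃ s : PP r, w ∈ K → ∀ k, s k ≠ (σ v w * t i) k ∧ ∀ j, s k ≠ F w j k := by
    intro w
    by_cases hw : w ∈ K
    · have h1 := hi w hw
      unfold Bad at h1
      rw [not_not] at h1
      obtain ⟨s, hs⟩ := h1
      exact ⟨s, fun _ => hs⟩
    · exact ⟨1, fun h => absurd h hw⟩
  choose e he using he
  let ψ : V → PP r := fun y => if y = v then t i else if y ∈ K then e y else φ y
  have ψv : ψ v = t i := if_pos rfl
  have ψK : ∀ y ∈ K, ψ y = e y := by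
    intro y hy
    have h1 : y ≠ v := fun h => hvK (h ▸ hy)
    show (if y = v then t i else if y ∈ K then e y else φ y) = e y
    rw [if_neg h1, if_pos hy]
  have ψo : ∀ y, y ≠ v → y ∉ K → ψ y = φ y := by
    intro y h1 h2
    show (if y = v then t i else if y ∈ K then e y else φ y) = φ y
    rw [if_neg h1, if_neg h2]
  have symm : ∀ a b, G.Adj a b → (∀ k, ψ b k ≠ σ a b (ψ a k)) →
      ∀ k, ψ a k ≠ σ b a (ψ b k) := by
    intro a b hab h k hk
    apply h k
    rw [hσ a b hab] at hk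
    rw [hk]
    exact ((σ a b).apply_symm_apply (ψ b k)).symm
  have c1 : ∀ b ∈ K, ∀ k, ψ b k ≠ σ v b (ψ v k) := by
    intro b hb k
    rw [ψv, ψK b hb]
    exact (he b hb k).1
  have c2 : ∀ a ∈ W, a ≠ v → a ∉ K → G.Adj a v → ∀ k, ψ v k ≠ σ a v (ψ a k) := by
    intro a haW hav haK hadj k
    rw [ψv, ψo a hav haK]
    have h1 : a ∈ nb G W v \ K := by
      rw [Finset.mem_sdiff]
      exact ⟨mem_nb.2 ⟨haW, hadj.symm⟩, haK⟩
    rw [hp, Finset.mem_singleton] at h1
    rw [h1]
    exact ht1 i hi0 k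
  have c3 : ∀ a ∈ W, ∀ b ∈ K, a ≠ v → a ∉ K → G.Adj a b → ∀ k, ψ b k ≠ σ a b (ψ a k) := by
    intro a haW b hb hav haK hadj k
    rw [ψo a hav haK, ψK b hb]
    obtain ⟨j, hj⟩ := hx b hb a haW hadj.symm hav
    have h1 := (he b hb k).2 j
    have h2 : F b j = σ a b * φ a := by
      show σ (x b j) b * φ (x b j) = σ a b * φ a
      rw [← hj]
    rw [h2] at h1
    exact h1
  refine ⟨ψ, ?_⟩
  intro a haW b hbW hadj
  by_cases hav : a = v
  · subst hav
    by_cases hbK : b ∈ K
    · exact c1 b hbK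
    · have hba : b ≠ a := fun h => G.irrefl (h ▸ hadj)
      exact symm b a hadj.symm (c2 b hbW hba hbK hadj.symm)
  · by_cases hbv : b = v
    · subst hbv
      by_cases haK : a ∈ K
      · exact symm b a hadj.symm (c1 a haK)
      · exact c2 a haW hav haK hadj
    · by_cases haK : a ∈ K
      · by_cases hbK : b ∈ K
        · exact absurd (hK b hbK).2.2 (hno a haW b hbW hadj (hK a haK).2.2)
        · exact symm b a hadj.symm (c3 b hbW a haK hbv hbK hadj.symm)
      · by_cases hbK : b ∈ K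
        · exact c3 a haW b hbK hav haK hadj
        · rw [ψo a hav haK, ψo b hbv hbK]
          apply hφ a _ b _ hadj
          · rw [Finset.mem_erase, Finset.mem_sdiff]
            exact ⟨hav, haW, haK⟩
          · rw [Finset.mem_erase, Finset.mem_sdiff]
            exact ⟨hbv, hbW, hbK⟩

end Pool.Agent.H747.CPG
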